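import Pool.Agent.P.MP_064970_gt.Final

/-!
# The Meeks–Wolf conjecture

A connected properly immersed minimal surface in Euclidean three-space whose area in every ball
of radius `R` is at most `2 π R ^ 2` is embedded and is a plane, a catenoid or a singly periodic
Scherk surface.
-/

open scoped Manifold ContDiff

universe u

/-- `f` is a smooth map from a space with charts in `V` to `W` whose differential is injective
at every point. -/
def MW.IsSmoothImmersion (V : Type) {W : Type} [NormedAddCommGroup V] [NormedSpace ℝ V]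
    [NormedAddCommGroup W] [NormedSpace ℝ W] {M : Type u} [TopologicalSpace M] [ChartedSpace V M]
    (f : M → W) : Prop :=
  ContMDiff 𝓘(ℝ, V) 𝓘(ℝ, W) ∞ f ∧ ∀ p : M, Function.Injective (mfderiv 𝓘(ℝ, V) 𝓘(ℝ, W) f p)

theorem Pool.Agent.Results.MP_064970_gt.MeeksWolf.result
    (M : Type u) [TopologicalSpace M] [T2Space M] [ConnectedSpace M] [ChartedSpace MW.E2 M]
    [IsManifold (𝓡 2) ∞ M] (f : M → MW.E)
    (immersion : MW.IsSmoothImmersion MW.E2 f)
    (minimal : MW.IsMinimal f)
    (proper : IsProperMap f)
    (growth : ∀ (c : MW.E) (R : ℝ), 0 < R →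
      MW.area f (f ⁻¹' Metric.ball c R) ≤ ENNReal.ofReal (2 * Real.pi * R ^ 2)) :
    Function.Injective f ∧
      (MW.IsPlane (Set.range f) ∨ MW.IsCatenoid (Set.range f) ∨ MW.IsScherk (Set.range f)) := by
  haveI : SigmaCompactSpace M := by
    refine SigmaCompactSpace.of_countable
      (Set.range fun n : ℕ => f ⁻¹' Metric.closedBall 0 n) (Set.countable_range _) ?_ ?_
    · rintro _ ⟨n, rfl⟩
      exact proper.isCompact_preimage (isCompact_closedBall _ _)
    · refine Set.eq_univ_of_forall fun x => ?_
      obtain ⟨n, hn⟩ := exists_nat_ge ‖f x‖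
      exact ⟨_, ⟨n, rfl⟩, by simpa using hn⟩
  haveI : SecondCountableTopology M := ChartedSpace.secondCountable_of_sigmaCompact MW.E2 M
  obtain ⟨hinj, S, hmem, hS, hconn, hne⟩ :=
    MW.i_emb M f immersion.1 immersion.2 minimal proper growth
  refine ⟨hinj, ?_⟩
  rw [← hS]
  exact MW.f_main S hmem hconn hne
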